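import Pool.Agent.Helper4.MCP.Small
import Pool.Agent.Helper4.MCP.Upper
import Pool.Agent.Helper4.MCP.CORP
import Pool.Agent.Helper4.MCP.ITER
import Pool.Agent.Helper15.MCE.LA
import Pool.Agent.Helper26.MCP.CUBE
import Pool.Agent.Helper26.MCP.NCX
import Pool.Agent.Helper93.MCP.NC
import Pool.Agent.Helper94.MCP.UNI
import Pool.Agent.Helper86.MCP.PURE
import Pool.Agent.Helper13.MCP.LD
import Pool.Agent.Helper96.MCP.COV
import Pool.Agent.Helper91.MCP.SPR
import Pool.Agent.Helper55.MCP.PAT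
import Pool.Agent.Helper16.MCP.CNTP
import Pool.Agent.Helper86.MCP.CRP
import Pool.Agent.Helper8.MCP.ENT
import Pool.Agent.Helper87.MCP.SPLIT
import Pool.Agent.Helper35.MCP.ZB
import Pool.Agent.Helper7.MCP.DETC
import Pool.Agent.Helper48.MCP.REG
import Pool.Agent.Helper35.MCP.BIN
import Pool.Agent.Helper12.MCP.MARK
import Pool.Agent.Helper15.MCP.STAR
import Pool.Agent.Helper56.MCP.NUMP

/-!
Minimal complements in finite abelian groups: `T(G) = Θ~(√|G|)` for all finite abelian groups, and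
`T(n) = Θ~(√n)`.
-/

namespace Pool.Agent.Results.MP_d8224a_co.FullAnswer

open Pointwise

/-- `C` is a minimal complement in `G`: for some `W ⊆ G` one has `W + C = G`, and `W + C' ≠ G` for
every proper subset `C'` of `C`. -/
def IsMinimalComplement {G : Type} [AddCommGroup G] (C : Set G) : Prop :=
  ∃ W : Set G, W + C = Set.univ ∧ ∀ C' : Set G, C' ⊂ C → W + C' ≠ Set.univ

/-- The set of the `t` for which every nonempty subset of `G` with at most `t` elements is a minimal
complement in `G`. -/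
def Admissible (G : Type) [AddCommGroup G] : Set ℕ :=
  {t : ℕ | ∀ C : Set G, C.Nonempty → C.ncard ≤ t → IsMinimalComplement C}

/-- `T(G)`, the largest `t` such that every nonempty subset of `G` with at most `t` elements is a
minimal complement in `G` (for `|G| ≥ 4` this set of numbers `t` has a largest element, which is part
of the theorem below). -/
noncomputable def T (G : Type) [AddCommGroup G] : ℕ := sSup (Admissible G)

/-- `T(n)`, the minimum of `T(G)` over the abelian groups `G` of order `n`. -/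
noncomputable def Tn (n : ℕ) : ℕ :=
  sInf {t : ℕ | ∃ (G : Type) (_ : AddCommGroup G) (_ : Fintype G), Fintype.card G = n ∧ T G = t}

open Pool.Agent.Helper4.MCP in
lemma all_goals : G_CORP ∧ G_NUMP := by
  have hNC := Helper93.MCP.goalNC Helper26.MCP.goalCUBE (Helper26.MCP.goalNCX Helper15.MCE.goalLA)
  have hUNI := Helper94.MCP.goalUNI hNC
  have hCOV := Helper96.MCP.goalCOV
  have hPAT := Helper55.MCP.goalPAT
  have hCNTP := Helper16.MCP.goalCNTP Helper91.MCP.goalSPR hPAT
  have hENT := Helper8.MCP.goalENT Helper86.MCP.goalCRP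
  have hSPLIT := Helper87.MCP.goalSPLIT hPAT hCNTP hENT
  have hUNSP := goalUNSP hSPLIT Helper35.MCP.goalZB
  have hSTP := goalSTP hUNI Helper86.MCP.goalPURE Helper13.MCP.goalLD hCOV hUNSP
    Helper7.MCP.goalDETC
  have hITER := goalITER hSTP
  exact ⟨goalCORP hITER Helper48.MCP.goalREG Helper35.MCP.goalBIN Helper12.MCP.goalMARK hCOV
    Helper15.MCP.goalSTAR, Helper56.MCP.goalNUMP⟩

/-- Q2 and Q1 with `a = -250`, `b = 3`: `T(G) = Θ~(√|G|)` uniformly over all finite abelian groups `G`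
(`|G| ≥ 4`), and `T(n) = Θ~(√n)`. -/
theorem result :
    (∃ c K : ℝ, 0 < c ∧ 0 < K ∧ ∀ (G : Type) [AddCommGroup G] [Fintype G], 4 ≤ Fintype.card G →
      IsGreatest (Admissible G) (T G) ∧
      c * (Real.sqrt (Fintype.card G) * Real.log (Fintype.card G) ^ (-250 : ℤ)) ≤ T G ∧
      T G ≤ K * (Real.sqrt (Fintype.card G) * Real.log (Fintype.card G) ^ (3 : ℤ))) ∧
    (∃ c K : ℝ, 0 < c ∧ 0 < K ∧ ∀ n : ℕ, 4 ≤ n →
      c * (Real.sqrt n * Real.log n ^ (-250 : ℤ)) ≤ Tn n ∧
      Tn n ≤ K * (Real.sqrt n * Real.log n ^ (3 : ℤ))) := by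
  have hmain : ∃ c K : ℝ, 0 < c ∧ 0 < K ∧ ∀ (G : Type) [AddCommGroup G] [Fintype G],
      4 ≤ Fintype.card G → IsGreatest (Admissible G) (T G) ∧
      c * (Real.sqrt (Fintype.card G) * Real.log (Fintype.card G) ^ (-250 : ℤ)) ≤ T G ∧
      T G ≤ K * (Real.sqrt (Fintype.card G) * Real.log (Fintype.card G) ^ (3 : ℤ)) := by
    obtain ⟨c, hc, hlow⟩ := Helper4.MCP.lower_good all_goals.1 all_goals.2
    obtain ⟨K, hK, hup⟩ := Helper4.MCP.upper_bad
    refine ⟨c, K, hc, hK, ?_⟩
    intro G _ _ h4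
    obtain ⟨t, ht1, ht2⟩ := hlow G (by omega)
    obtain ⟨C, hC1, hC2, hC3⟩ := hup G h4
    have hadm : t ∈ Admissible G := ht2
    have hbd : ∀ s ∈ Admissible G, s ≤ C.ncard := by
      intro s hs
      by_contra hcon
      push Not at hcon
      exact hC3 (hs C hC1 hcon.le)
    have hbdd : BddAbove (Admissible G) := ⟨C.ncard, hbd⟩
    have hne : (Admissible G).Nonempty := ⟨t, hadm⟩
    refine ⟨⟨Nat.sSup_mem hne hbdd, fun s hs => le_csSup hbdd hs⟩, ?_, ?_⟩
    · have h1 : t ≤ T G := le_csSup hbdd hadm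
      have h2 : (t : ℝ) ≤ T G := by exact_mod_cast h1
      refine le_trans (le_of_eq ?_) (ht1.trans h2)
      rw [zpow_neg, div_eq_mul_inv]
      norm_cast
    · have h1 : T G ≤ C.ncard := csSup_le hne hbd
      have h2 : (T G : ℝ) ≤ C.ncard := by exact_mod_cast h1
      refine (h2.trans hC2).trans (le_of_eq ?_)
      norm_cast
  refine ⟨hmain, ?_⟩
  obtain ⟨c, K, hc, hK, h⟩ := hmain
  refine ⟨c, K, hc, hK, fun n hn => ?_⟩
  have hne : {t : ℕ | ∃ (G : Type) (_ : AddCommGroup G) (_ : Fintype G),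
      Fintype.card G = n ∧ T G = t}.Nonempty := by
    have : NeZero n := ⟨by omega⟩
    exact ⟨_, ZMod n, inferInstance, inferInstance, ZMod.card n, rfl⟩
  obtain ⟨G, i1, i2, hG, hT⟩ := Nat.sInf_mem hne
  have h2 := h G (by rw [hG]; exact hn)
  rw [hG] at h2
  have h3 : Tn n = T G := hT.symm
  rw [h3]
  exact h2.2

end Pool.Agent.Results.MP_d8224a_co.FullAnswer
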